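import Mathlib

set_option autoImplicit false

/-!
# Cyclic products of the matrices `!![0, b; a, c]`
-/

namespace Pool.Agent.H56.GE

open Finset Matrix

/-- the matrices -/
def Mt (a b c : ℕ → ℝ) (i : ℕ) : Matrix (Fin 2) (Fin 2) ℝ := !![0, b i; a i, c i]

/-- products of `r` consecutive matrices, starting with the matrix of index `i` -/
def W (M : ℕ → Matrix (Fin 2) (Fin 2) ℝ) (i : ℕ) : ℕ → Matrix (Fin 2) (Fin 2) ℝ
  | 0 => 1
  | (r + 1) => W M i r * M (i + r)

variable {a b c : ℕ → ℝ}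

lemma W_succ_00 (i r : ℕ) : W (Mt a b c) i (r + 1) 0 0 = W (Mt a b c) i r 0 1 * a (i + r) := by
  simp [W, Mt, Matrix.mul_apply, Fin.sum_univ_two]

lemma W_succ_01 (i r : ℕ) : W (Mt a b c) i (r + 1) 0 1 =
    W (Mt a b c) i r 0 0 * b (i + r) + W (Mt a b c) i r 0 1 * c (i + r) := by
  simp [W, Mt, Matrix.mul_apply, Fin.sum_univ_two]

lemma W_succ_10 (i r : ℕ) : W (Mt a b c) i (r + 1) 1 0 = W (Mt a b c) i r 1 1 * a (i + r) := by
  simp [W, Mt, Matrix.mul_apply, Fin.sum_univ_two]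

lemma W_succ_11 (i r : ℕ) : W (Mt a b c) i (r + 1) 1 1 =
    W (Mt a b c) i r 1 0 * b (i + r) + W (Mt a b c) i r 1 1 * c (i + r) := by
  simp [W, Mt, Matrix.mul_apply, Fin.sum_univ_two]

lemma row01 {l : ℕ} (hpath : ∀ i r, 1 ≤ r → r < l → W (Mt a b c) i r 0 0 = 0) (i r : ℕ)
    (hr : r + 1 < l + 1) :
    W (Mt a b c) i (r + 1) 0 1 = b i * ∏ j ∈ range r, c (i + 1 + j) := by
  induction r with
  | zero => simp [W, Mt]
  | succ r ih =>
    rw [W_succ_01, hpath i (r + 1) (by omega) (by omega), ih (by omega), Finset.prod_range_succ]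
    rw [show i + (r + 1) = i + 1 + r from by ring]
    ring

lemma ba_zero {l : ℕ} (hc : ∀ i, c i ≠ 0)
    (hpath : ∀ i r, 1 ≤ r → r < l → W (Mt a b c) i r 0 0 = 0) (i r : ℕ) (hr : 1 ≤ r)
    (hrl : r + 1 < l) : b i * a (i + r) = 0 := by
  have h1 := hpath i (r + 1) (by omega) hrl
  obtain ⟨r, rfl⟩ : ∃ r', r = r' + 1 := ⟨r - 1, by omega⟩
  rw [W_succ_00, row01 hpath i r (by omega)] at h1
  have h2 : (∏ j ∈ range r, c (i + 1 + j)) ≠ 0 := Finset.prod_ne_zero_iff.2 (fun j _ => hc _)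
  have h3 : (b i * a (i + (r + 1))) * ∏ j ∈ range r, c (i + 1 + j) = 0 := by
    rw [← h1]; ring
  exact (mul_eq_zero.1 h3).resolve_right h2

/-- **The algebraic lemma.** -/
theorem trace_ne {l : ℕ} (hl : 3 ≤ l) (hper : ∀ i, a (i + l) = a i ∧ b (i + l) = b i)
    (hc : ∀ i, c i ≠ 0)
    (hpath : ∀ i r, 1 ≤ r → r < l → W (Mt a b c) i r 0 0 = 0)
    (hpair : ∀ i, (b i = 0 ∨ a (i + 1) = 0) → a i * b (i + 1) + c i * c (i + 1) ≠ 0) :
    ∃ i, (W (Mt a b c) i l).trace ≠ 0 := by
  by_cases hex : ∃ i, a i * b (i + 1) ≠ 0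
  · obtain ⟨i, hi⟩ := hex
    refine ⟨i, ?_⟩
    have hai : a i ≠ 0 := left_ne_zero_of_mul hi
    have hbi : b (i + 1) ≠ 0 := right_ne_zero_of_mul hi
    have ha : ∀ j, 2 ≤ j → j < l → a (i + j) = 0 := by
      intro j hj hjl
      have := ba_zero hc hpath (i + 1) (j - 1) (by omega) (by omega)
      rw [show i + 1 + (j - 1) = i + j from by omega] at this
      exact (mul_eq_zero.1 this).resolve_left hbi
    have hb : ∀ j, 2 ≤ j → j < l → b (i + j) = 0 := by
      intro j hj hjl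
      have := ba_zero hc hpath (i + j) (l - j) (by omega) (by omega)
      rw [show i + j + (l - j) = i + l from by omega, (hper i).1] at this
      exact (mul_eq_zero.1 this).resolve_right hai
    have hW : ∀ r, 2 + (r + 1) ≤ l →
        W (Mt a b c) i (2 + (r + 1)) 0 0 = 0 ∧
        W (Mt a b c) i (2 + (r + 1)) 1 0 = 0 ∧
        W (Mt a b c) i (2 + (r + 1)) 1 1 =
          W (Mt a b c) i 2 1 1 * ∏ j ∈ range (r + 1), c (i + 2 + j) := by
      intro r
      induction r with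
      | zero =>
        intro h
        refine ⟨?_, ?_, ?_⟩
        · rw [show 2 + (0 + 1) = 2 + 1 from rfl, W_succ_00, ha 2 le_rfl (by omega), mul_zero]
        · rw [show 2 + (0 + 1) = 2 + 1 from rfl, W_succ_10, ha 2 le_rfl (by omega), mul_zero]
        · rw [show 2 + (0 + 1) = 2 + 1 from rfl, W_succ_11, hb 2 le_rfl (by omega), mul_zero,
            zero_add]
          simp
      | succ r ih =>
        intro h
        obtain ⟨h1, h2, h3⟩ := ih (by omega)
        have e1 : 2 + (r + 1 + 1) = (2 + (r + 1)) + 1 := by ring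
        refine ⟨?_, ?_, ?_⟩
        · rw [e1, W_succ_00, ha (2 + (r + 1)) (by omega) (by omega), mul_zero]
        · rw [e1, W_succ_10, ha (2 + (r + 1)) (by omega) (by omega), mul_zero]
        · rw [e1, W_succ_11, hb (2 + (r + 1)) (by omega) (by omega), mul_zero, zero_add, h3,
            Finset.prod_range_succ _ (r + 1), show i + (2 + (r + 1)) = i + 2 + (r + 1) from by ring]
          ring
    obtain ⟨r, hr⟩ : ∃ r, l = 2 + (r + 1) := ⟨l - 3, by omega⟩
    obtain ⟨h1, -, h3⟩ := hW r (by omega)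
    rw [← hr] at h1 h3
    rw [Matrix.trace_fin_two, h1, zero_add, h3]
    refine mul_ne_zero ?_ (Finset.prod_ne_zero_iff.2 (fun j _ => hc _))
    have h4 : W (Mt a b c) i 2 1 1 = a i * b (i + 1) + c i * c (i + 1) := by
      simp [W, Mt, Matrix.mul_apply, Fin.sum_univ_two]
    rw [h4]
    apply hpair
    have := ba_zero hc hpath i 1 le_rfl (by omega)
    exact mul_eq_zero.1 this
  · push Not at hex
    refine ⟨0, ?_⟩
    have h11 : ∀ r, W (Mt a b c) 0 (r + 1) 1 1 = ∏ j ∈ range (r + 1), c j := by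
      intro r
      induction r with
      | zero => simp [W, Mt]
      | succ r ih =>
        rw [W_succ_11, W_succ_10, ih, Finset.prod_range_succ _ (r + 1), mul_assoc,
          show (0 : ℕ) + (r + 1) = 0 + r + 1 from by ring, hex (0 + r), mul_zero, zero_add]
        simp
    obtain ⟨r, hr⟩ : ∃ r, l = r + 1 + 1 := ⟨l - 2, by omega⟩
    have h00 : W (Mt a b c) 0 (r + 1 + 1) 0 0 = 0 := by
      rw [W_succ_00, row01 (l := l) hpath 0 r (by omega)]
      have := hex (0 + (r + 1))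
      rw [show 0 + (r + 1) + 1 = 0 + l from by omega, (hper 0).2] at this
      linear_combination (∏ j ∈ range r, c (0 + 1 + j)) * this
    rw [hr, Matrix.trace_fin_two, h00, h11 (r + 1), zero_add]
    exact Finset.prod_ne_zero_iff.2 (fun j _ => hc _)

end Pool.Agent.H56.GE
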