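import Mathlib

set_option autoImplicit false

/-!
# Tables of events determined by two bits
-/

namespace Pool.Agent.H56.GE

/-- interaction of a table -/
def tC (β : Fin 2 → Fin 2 → ℝ) : ℝ := β 1 1 - β 1 0 - β 0 1 + β 0 0

/-- coefficient of the first variable, `m` is the distribution of the second one -/
def tD (β : Fin 2 → Fin 2 → ℝ) (m : Fin 2 → ℝ) : ℝ :=
  m 0 * (β 1 0 - β 0 0) + m 1 * (β 1 1 - β 0 1)

/-- coefficient of the second variable, `p` is the distribution of the first one -/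
def tI (β : Fin 2 → Fin 2 → ℝ) (p : Fin 2 → ℝ) : ℝ :=
  p 0 * (β 0 1 - β 0 0) + p 1 * (β 1 1 - β 1 0)

/-- all entries are `0` or `1` -/
def ZO (β : Fin 2 → Fin 2 → ℝ) : Prop := ∀ i j, β i j = 0 ∨ β i j = 1

lemma tD_swap (β : Fin 2 → Fin 2 → ℝ) (m : Fin 2 → ℝ) : tD (fun i j => β j i) m = tI β m := by
  unfold tD tI; ring

lemma tI_swap (β : Fin 2 → Fin 2 → ℝ) (m : Fin 2 → ℝ) : tI (fun i j => β j i) m = tD β m := by
  unfold tD tI; ring

lemma tC_swap (β : Fin 2 → Fin 2 → ℝ) : tC (fun i j => β j i) = tC β := by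
  unfold tC; ring

lemma xor_of {β : Fin 2 → Fin 2 → ℝ} (hβ : ZO β) (hC : tC β ≠ 0) {p : Fin 2 → ℝ}
    (h0 : 0 < p 0) (h1 : 0 < p 1) (hI : tI β p = 0) :
    β 1 1 - β 0 1 = -(β 1 0 - β 0 0) ∧ (β 1 0 - β 0 0 = 1 ∨ β 1 0 - β 0 0 = -1) := by
  unfold tC at hC
  unfold tI at hI
  rcases hβ 0 0 with a | a <;> rcases hβ 0 1 with b | b <;> rcases hβ 1 0 with c | c <;>
    rcases hβ 1 1 with d | d <;> rw [a, b, c, d] at hC hI <;> rw [a, b, c, d] <;>
    first
    | (exfalso; revert hC; norm_num; done)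
    | (exfalso; linarith)
    | norm_num

lemma pair_ne_aux {β γ : Fin 2 → Fin 2 → ℝ} (hβ : ZO β) (hγ : ZO γ) (hC : tC β ≠ 0)
    (hC' : tC γ ≠ 0) {m p : Fin 2 → ℝ} (hm0 : 0 < m 0) (hm1 : 0 < m 1) (hm : m 0 + m 1 = 1)
    (hp0 : 0 < p 0) (hp1 : 0 < p 1) (h : tI β p = 0) :
    tD β m * tD γ m + m 0 * m 1 * (tC β * tC γ) ≠ 0 := by
  obtain ⟨h1, h2⟩ := xor_of hβ hC hp0 hp1 h
  have e1 : tD β m * tD γ m + m 0 * m 1 * (tC β * tC γ) =
      (β 1 0 - β 0 0) * ((m 0 + m 1) * (m 0 * (γ 1 0 - γ 0 0) - m 1 * (γ 1 1 - γ 0 1))) := by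
    have e2 : tD β m = (β 1 0 - β 0 0) * (m 0 - m 1) := by unfold tD; rw [h1]; ring
    have e3 : tC β = -2 * (β 1 0 - β 0 0) := by unfold tC; linear_combination h1
    rw [e2, e3]
    unfold tD tC
    ring
  rw [e1, hm, one_mul]
  refine mul_ne_zero (by rcases h2 with h2 | h2 <;> rw [h2] <;> norm_num) ?_
  unfold tC at hC'
  rcases hγ 0 0 with a | a <;> rcases hγ 0 1 with b | b <;> rcases hγ 1 0 with c | c <;>
    rcases hγ 1 1 with d | d <;> rw [a, b, c, d] at hC' <;> rw [a, b, c, d] <;>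
    first
    | (exfalso; revert hC'; norm_num; done)
    | (intro h3; linarith)

lemma pair_ne {β γ : Fin 2 → Fin 2 → ℝ} (hβ : ZO β) (hγ : ZO γ) (hC : tC β ≠ 0)
    (hC' : tC γ ≠ 0) {m p q : Fin 2 → ℝ} (hm0 : 0 < m 0) (hm1 : 0 < m 1) (hm : m 0 + m 1 = 1)
    (hp0 : 0 < p 0) (hp1 : 0 < p 1) (hq0 : 0 < q 0) (hq1 : 0 < q 1)
    (h : tI β p = 0 ∨ tI γ q = 0) :
    tD β m * tD γ m + m 0 * m 1 * (tC β * tC γ) ≠ 0 := by
  rcases h with h | h
  · exact pair_ne_aux hβ hγ hC hC' hm0 hm1 hm hp0 hp1 h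
  · have := pair_ne_aux hγ hβ hC' hC hm0 hm1 hm hq0 hq1 h
    intro h'
    apply this
    linarith

/-- comparison of two tables -/
def le4 (a b c d e f g h : Bool) : Bool := (!a || e) && (!b || f) && (!c || g) && (!d || h)

/-- the tables have interaction -/
def nz (a b c d : Bool) : Bool := d.toNat + a.toNat != c.toNat + b.toNat

lemma dec4 : ∀ a b c d e f g h : Bool, nz a b c d = true → nz e f g h = true →
    (le4 a b c d e f g h || le4 e f g h a b c d || le4 a b c d (!e) (!f) (!g) (!h) ||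
      le4 (!a) (!b) (!c) (!d) e f g h) = true := by
  decide

lemma le4_imp {a b c d e f g h : Bool} (H : le4 a b c d e f g h = true) :
    (a = true → e = true) ∧ (b = true → f = true) ∧ (c = true → g = true) ∧
      (d = true → h = true) := by
  revert H
  cases a <;> cases b <;> cases c <;> cases d <;> simp [le4] <;> tauto

/-- two tables with interaction are comparable up to complements -/
lemma tables (β γ : Fin 2 → Fin 2 → Bool)
    (hβ : (β 1 1).toNat + (β 0 0).toNat ≠ (β 1 0).toNat + (β 0 1).toNat)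
    (hγ : (γ 1 1).toNat + (γ 0 0).toNat ≠ (γ 1 0).toNat + (γ 0 1).toNat) :
    (∀ i j, β i j = true → γ i j = true) ∨ (∀ i j, γ i j = true → β i j = true) ∨
    (∀ i j, β i j = true → γ i j ≠ true) ∨ (∀ i j, β i j ≠ true → γ i j = true) := by
  have h1 : nz (β 0 0) (β 0 1) (β 1 0) (β 1 1) = true := by
    unfold nz; simpa using hβ
  have h2 : nz (γ 0 0) (γ 0 1) (γ 1 0) (γ 1 1) = true := by
    unfold nz; simpa using hγ
  have h := dec4 _ _ _ _ _ _ _ _ h1 h2
  simp only [Bool.or_eq_true] at h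
  rcases h with ((h | h) | h) | h
  · left
    obtain ⟨a, b, c, d⟩ := le4_imp h
    intro i j; fin_cases i <;> fin_cases j <;> assumption
  · right; left
    obtain ⟨a, b, c, d⟩ := le4_imp h
    intro i j; fin_cases i <;> fin_cases j <;> assumption
  · right; right; left
    obtain ⟨a, b, c, d⟩ := le4_imp h
    intro i j; fin_cases i <;> fin_cases j <;> intro h0 h1 <;> simp_all
  · right; right; right
    obtain ⟨a, b, c, d⟩ := le4_imp h
    intro i j; fin_cases i <;> fin_cases j <;> intro h0 <;> simp_all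

lemma tables1 (β γ : Fin 2 → Bool) (hβ : β 0 ≠ β 1) (hγ : γ 0 ≠ γ 1) :
    (∀ i, β i = true → γ i = true) ∨ (∀ i, β i = true → γ i ≠ true) := by
  have key : ∀ b0 b1 g0 g1 : Bool, b0 ≠ b1 → g0 ≠ g1 →
      ((b0 = true → g0 = true) ∧ (b1 = true → g1 = true)) ∨
      ((b0 = true → g0 ≠ true) ∧ (b1 = true → g1 ≠ true)) := by decide
  rcases key _ _ _ _ hβ hγ with ⟨a, b⟩ | ⟨a, b⟩
  · left; intro i; fin_cases i <;> assumption
  · right; intro i; fin_cases i <;> assumption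

/-- the real table -/
def rt (β : Fin 2 → Fin 2 → Bool) (i j : Fin 2) : ℝ := if β i j = true then 1 else 0

lemma rt_ZO (β : Fin 2 → Fin 2 → Bool) : ZO (rt β) := by
  intro i j
  unfold rt
  by_cases h : β i j = true <;> simp [h]

lemma tC_rt {β : Fin 2 → Fin 2 → Bool} :
    tC (rt β) ≠ 0 ↔ (β 1 1).toNat + (β 0 0).toNat ≠ (β 1 0).toNat + (β 0 1).toNat := by
  unfold tC rt
  cases β 1 1 <;> cases β 0 0 <;> cases β 1 0 <;> cases β 0 1 <;> norm_num

/-- a table without interaction depends on one variable only -/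
lemma no_interaction {β : Fin 2 → Fin 2 → Bool}
    (h : ¬ (β 1 1).toNat + (β 0 0).toNat ≠ (β 1 0).toNat + (β 0 1).toNat) :
    (∀ i j j', β i j = β i j') ∨ (∀ i i' j, β i j = β i' j) := by
  have key : ∀ b00 b01 b10 b11 : Bool, ¬ b11.toNat + b00.toNat ≠ b10.toNat + b01.toNat →
      (b00 = b01 ∧ b10 = b11) ∨ (b00 = b10 ∧ b01 = b11) := by decide
  rcases key _ _ _ _ h with ⟨a, b⟩ | ⟨a, b⟩
  · left
    intro i j j'
    fin_cases i <;> fin_cases j <;> fin_cases j' <;> simp_all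
  · right
    intro i i' j
    fin_cases i <;> fin_cases i' <;> fin_cases j <;> simp_all

end Pool.Agent.H56.GE
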