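import Pool.Agent.H56.GE.Tr
import Pool.Agent.H56.GE.Tab
import Pool.Agent.H56.GL.Xor

set_option autoImplicit false
set_option linter.unusedSectionVars false

/-!
# The edge of an event determined by two bits
-/

namespace Pool.Agent.H56.GE

open Finset Matrix Pool.Agent.H56.GL

/-- independent bits with biases in `(0, 1)` -/
def PosSource {V : Type} (μ : V → Fin 2 → ℝ) : Prop :=
  ∀ v, (∀ a, 0 < μ v a) ∧ μ v 0 + μ v 1 = 1

lemma PosSource.isSource {V : Type} {μ : V → Fin 2 → ℝ} (h : PosSource μ) : IsSource μ :=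
  fun v => ⟨fun a => ((h v).1 a).le, by rw [Fin.sum_univ_two]; exact (h v).2⟩

noncomputable def sg {V : Type} (μ : V → Fin 2 → ℝ) (v : V) : ℝ := √(μ v 0 * μ v 1)

def tau {V : Type} (μ : V → Fin 2 → ℝ) (v : V) (a : Fin 2) : ℝ := if a = 1 then μ v 0 else -μ v 1

noncomputable def ph {V : Type} (μ : V → Fin 2 → ℝ) (v : V) (a : Fin 2) : ℝ := tau μ v a / sg μ v

section
variable {V : Type} {μ : V → Fin 2 → ℝ} (hμ : PosSource μ)
include hμ

lemma sg_pos (v : V) : 0 < sg μ v :=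
  Real.sqrt_pos.2 (mul_pos ((hμ v).1 0) ((hμ v).1 1))

lemma sg_sq (v : V) : sg μ v ^ 2 = μ v 0 * μ v 1 :=
  Real.sq_sqrt (mul_pos ((hμ v).1 0) ((hμ v).1 1)).le

lemma sg_ph (v : V) (a : Fin 2) : sg μ v * ph μ v a = tau μ v a := by
  unfold ph
  have := (sg_pos hμ v).ne'
  field_simp

lemma ph_ON : ON μ (ph μ) := by
  intro v
  have h1 := (sg_pos hμ v).ne'
  have h2 := sg_sq hμ v
  have h3 := (hμ v).2
  constructor
  · rw [Fin.sum_univ_two]
    unfold ph tau
    simp only [Fin.isValue, zero_ne_one, if_false, if_true]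
    field_simp
    ring
  · rw [Fin.sum_univ_two]
    unfold ph tau
    simp only [Fin.isValue, zero_ne_one, if_false, if_true]
    rw [div_pow, div_pow, h2]
    have a0 := ((hμ v).1 0).ne'
    have a1 := ((hμ v).1 1).ne'
    field_simp
    linarith
end

/-- one more fair bit -/
noncomputable def ext {n : ℕ} (μ : Fin n → Fin 2 → ℝ) : Fin (n + 1) → Fin 2 → ℝ :=
  Fin.cons (fun _ => 1 / 2) μ

@[simp] lemma ext_zero {n : ℕ} (μ : Fin n → Fin 2 → ℝ) (a : Fin 2) : ext μ 0 a = 1 / 2 := rfl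

@[simp] lemma ext_succ {n : ℕ} (μ : Fin n → Fin 2 → ℝ) (v : Fin n) : ext μ v.succ = μ v := rfl

lemma ext_pos {n : ℕ} {μ : Fin n → Fin 2 → ℝ} (hμ : PosSource μ) : PosSource (ext μ) := by
  intro v
  refine Fin.cases ?_ (fun v => ?_) v
  · simp only [ext_zero]; norm_num
  · simpa using hμ v

lemma Ex_ext {n : ℕ} (μ : Fin n → Fin 2 → ℝ) (K : (Fin (n + 1) → Fin 2) → ℝ) :
    Ex (ext μ) K = ∑ a : Fin 2, ∑ y : Fin n → Fin 2,
      1 / 2 * (wt μ y * K (Fin.cons a y : Fin (n + 1) → Fin 2)) := by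
  unfold Ex
  rw [← (Fin.consEquiv (fun _ => Fin 2)).sum_comp, Fintype.sum_prod_type]
  refine Finset.sum_congr rfl (fun a _ => Finset.sum_congr rfl (fun y _ => ?_))
  have h1 : wt (ext μ) (Fin.cons a y : Fin (n + 1) → Fin 2) = 1 / 2 * wt μ y := by
    unfold wt
    rw [Fin.prod_univ_succ]
    simp
  change wt (ext μ) (Fin.cons a y : Fin (n + 1) → Fin 2) * K (Fin.cons a y) = _
  rw [h1]
  ring

/-- the information at the end `m` of an edge -/
def Half {V : Type} (μ : V → Fin 2 → ℝ) (m : V) (ic oc c : ℝ) : Prop :=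
  c ≠ 0 ∧ (oc = 0 ∨ ∃ (γ : Fin 2 → Fin 2 → ℝ) (p : Fin 2 → ℝ) (σ : ℝ), ZO γ ∧ tC γ ≠ 0 ∧
    0 < p 0 ∧ 0 < p 1 ∧ σ ≠ 0 ∧ ic = sg μ m * tI γ p ∧ oc = σ * tD γ (μ m) ∧
    c = σ * sg μ m * tC γ)

lemma half_pair {V : Type} {μ : V → Fin 2 → ℝ} (hμ : PosSource μ) {m : V}
    {ic oc c ic' oc' c' : ℝ} (h : Half μ m ic oc c) (h' : Half μ m ic' oc' c')
    (h0 : ic = 0 ∨ ic' = 0) : oc * oc' + c * c' ≠ 0 := by
  obtain ⟨hc, h⟩ := h
  obtain ⟨hc', h'⟩ := h'
  have hcc := mul_ne_zero hc hc'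
  rcases h with h | ⟨γ, p, σ, a1, a2, a3, a4, a5, a6, a7, a8⟩
  · rw [h, zero_mul, zero_add]; exact hcc
  rcases h' with h' | ⟨γ', p', σ', b1, b2, b3, b4, b5, b6, b7, b8⟩
  · rw [h', mul_zero, zero_add]; exact hcc
  have hs := (sg_pos hμ m).ne'
  have h1 : tI γ p = 0 ∨ tI γ' p' = 0 := by
    rcases h0 with h0 | h0
    · left; rw [a6] at h0; exact (mul_eq_zero.1 h0).resolve_left hs
    · right; rw [b6] at h0; exact (mul_eq_zero.1 h0).resolve_left hs
  have h2 := pair_ne a1 b1 a2 b2 ((hμ m).1 0) ((hμ m).1 1) (hμ m).2 a3 a4 b3 b4 h1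
  have h3 : oc * oc' + c * c' =
      σ * σ' * (tD γ (μ m) * tD γ' (μ m) + μ m 0 * μ m 1 * (tC γ * tC γ')) := by
    rw [← sg_sq hμ m, a7, b7, a8, b8]
    ring
  rw [h3]
  exact mul_ne_zero (mul_ne_zero a5 b5) h2

/-- the edge of an event -/
structure Edge {n : ℕ} (μ : Fin n → Fin 2 → ℝ) (B : Set (Fin n → Fin 2)) where
  s : Fin (n + 1)
  t : Fin (n + 1)
  a : ℝ
  b : ℝ
  c : ℝ
  st : s ≠ t
  hs : Half (ext μ) s a b c
  ht : Half (ext μ) t b a c
  val : ∀ x : Fin (n + 1) → Fin 2,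
    fn !![0, b; a, c] (ph (ext μ) s) (ph (ext μ) t) (x s) (x t) =
      (if s = 0 then ph (ext μ) 0 (x 0) else 1) *
        (B.indicator (fun _ => (1 : ℝ)) (fun v => x v.succ) - prob μ B)
  shape : (∃ (v : Fin n) (β : Fin 2 → Bool), s = 0 ∧ t = v.succ ∧ β 0 ≠ β 1 ∧
      ∀ y, y ∈ B ↔ β (y v) = true) ∨
    (∃ (u w : Fin n) (β : Fin 2 → Fin 2 → Bool), s = u.succ ∧ t = w.succ ∧
      (β 1 1).toNat + (β 0 0).toNat ≠ (β 1 0).toNat + (β 0 1).toNat ∧
      ∀ y, y ∈ B ↔ β (y u) (y w) = true)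

lemma edge_of_one {n : ℕ} {μ : Fin n → Fin 2 → ℝ} (hμ : PosSource μ) {B : Set (Fin n → Fin 2)}
    (v : Fin n) (β : Fin 2 → Bool) (hβ : β 0 ≠ β 1) (hB : ∀ y, y ∈ B ↔ β (y v) = true) :
    Nonempty (Edge μ B) := by
  classical
  have hμ' := ext_pos hμ
  set r : Fin 2 → ℝ := fun i => if β i = true then 1 else 0 with hr
  have hr01 : r 1 - r 0 ≠ 0 := by
    simp only [hr]
    cases h0 : β 0 <;> cases h1 : β 1 <;> simp_all
  have hind : ∀ y : Fin n → Fin 2, B.indicator (fun _ => (1 : ℝ)) y = r (y v) := by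
    intro y
    by_cases h : y ∈ B
    · rw [Set.indicator_of_mem h]; simp [hr, (hB y).1 h]
    · rw [Set.indicator_of_notMem h]
      have : β (y v) ≠ true := fun h' => h ((hB y).2 h')
      simp [hr, this]
  have hP : prob μ B = μ v 0 * r 0 + μ v 1 * r 1 := by
    rw [prob_eq]
    simp only [hind]
    rw [Ex_one_coord hμ.isSource v r, Fin.sum_univ_two]
  have hc : sg μ v * (r 1 - r 0) ≠ 0 := mul_ne_zero (sg_pos hμ v).ne' hr01
  refine ⟨⟨0, v.succ, 0, 0, sg μ v * (r 1 - r 0), (Fin.succ_ne_zero v).symm, ⟨hc, Or.inl rfl⟩,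
    ⟨hc, Or.inl rfl⟩, ?_, Or.inl ⟨v, β, rfl, rfl, hβ, hB⟩⟩⟩
  intro x
  rw [if_pos rfl, hind, hP]
  unfold fn
  have h1 : ph (ext μ) v.succ (x v.succ) = ph μ v (x v.succ) := rfl
  have h2 := sg_ph hμ v (x v.succ)
  have h3 : (r 1 - r 0) * tau μ v (x v.succ) = r (x v.succ) - (μ v 0 * r 0 + μ v 1 * r 1) := by
    have h4 := (hμ v).2
    generalize x v.succ = i
    unfold tau
    fin_cases i
    · simp
      linear_combination (r 0) * h4
    · simp
      linear_combination (r 1) * h4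
  rw [← h3, ← h2, h1]
  simp
  ring

lemma edge_of_two {n : ℕ} {μ : Fin n → Fin 2 → ℝ} (hμ : PosSource μ) {B : Set (Fin n → Fin 2)}
    (u w : Fin n) (huw : u ≠ w) (β : Fin 2 → Fin 2 → Bool)
    (hβ : (β 1 1).toNat + (β 0 0).toNat ≠ (β 1 0).toNat + (β 0 1).toNat)
    (hB : ∀ y, y ∈ B ↔ β (y u) (y w) = true) :
    Nonempty (Edge μ B) := by
  classical
  have hμ' := ext_pos hμ
  have hC : tC (rt β) ≠ 0 := tC_rt.2 hβ
  have hind : ∀ y : Fin n → Fin 2, B.indicator (fun _ => (1 : ℝ)) y = rt β (y u) (y w) := by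
    intro y
    by_cases h : y ∈ B
    · rw [Set.indicator_of_mem h]; simp [rt, (hB y).1 h]
    · rw [Set.indicator_of_notMem h]
      have : β (y u) (y w) ≠ true := fun h' => h ((hB y).2 h')
      simp [rt, this]
  have hP : prob μ B = μ u 0 * μ w 0 * rt β 0 0 + μ u 0 * μ w 1 * rt β 0 1 +
      (μ u 1 * μ w 0 * rt β 1 0 + μ u 1 * μ w 1 * rt β 1 1) := by
    rw [prob_eq]
    simp only [hind]
    rw [Ex_two_coord hμ.isSource huw (rt β)]
    simp only [Fin.sum_univ_two]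
  have hc : sg μ u * sg μ w * tC (rt β) ≠ 0 :=
    mul_ne_zero (mul_ne_zero (sg_pos hμ u).ne' (sg_pos hμ w).ne') hC
  refine ⟨⟨u.succ, w.succ, sg μ u * tD (rt β) (μ w), sg μ w * tI (rt β) (μ u),
    sg μ u * sg μ w * tC (rt β), fun h => huw (Fin.succ_injective _ h), ⟨hc, Or.inr ?_⟩,
    ⟨hc, Or.inr ?_⟩, ?_, Or.inr ⟨u, w, β, rfl, rfl, hβ, hB⟩⟩⟩
  · refine ⟨fun i j => rt β j i, μ w, sg μ w, fun i j => rt_ZO β j i, by rwa [tC_swap],
      (hμ w).1 0, (hμ w).1 1, (sg_pos hμ w).ne', ?_, ?_, ?_⟩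
    · rw [tI_swap]; rfl
    · rw [tD_swap]; rfl
    · have e : tC (fun i j => rt β j i) = tC (rt β) := tC_swap _
      rw [e]
      change sg μ u * sg μ w * tC (rt β) = sg μ w * sg μ u * tC (rt β)
      ring
  · exact ⟨rt β, μ u, sg μ u, rt_ZO β, hC, (hμ u).1 0, (hμ u).1 1, (sg_pos hμ u).ne', rfl, rfl, rfl⟩
  · intro x
    rw [if_neg (Fin.succ_ne_zero u), one_mul, hind, hP]
    have h1 : ph (ext μ) u.succ (x u.succ) = ph μ u (x u.succ) := rfl
    have h1' : ph (ext μ) w.succ (x w.succ) = ph μ w (x w.succ) := rfl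
    have h2 := sg_ph hμ u (x u.succ)
    have h2' := sg_ph hμ w (x w.succ)
    have h3 : tI (rt β) (μ u) * tau μ w (x w.succ) + tD (rt β) (μ w) * tau μ u (x u.succ) +
        tC (rt β) * (tau μ u (x u.succ) * tau μ w (x w.succ)) =
        rt β (x u.succ) (x w.succ) - (μ u 0 * μ w 0 * rt β 0 0 + μ u 0 * μ w 1 * rt β 0 1 +
      (μ u 1 * μ w 0 * rt β 1 0 + μ u 1 * μ w 1 * rt β 1 1)) := by
      have h4 : μ u 0 = 1 - μ u 1 := by linarith [(hμ u).2]
      have h5 : μ w 0 = 1 - μ w 1 := by linarith [(hμ w).2]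
      generalize x u.succ = i
      generalize x w.succ = j
      unfold tau tI tD tC
      rw [h4, h5]
      fin_cases i <;> fin_cases j <;> simp <;> ring
    rw [← h3, ← h2, ← h2', ← h1, ← h1']
    unfold fn
    simp
    ring

/-- every non-trivial event determined by two bits has an edge -/
theorem exists_edge {n : ℕ} {μ : Fin n → Fin 2 → ℝ} (hμ : PosSource μ)
    {B : Set (Fin n → Fin 2)} {u w : Fin n}
    (hdet : ∀ x y : Fin n → Fin 2, x u = y u → x w = y w → (x ∈ B ↔ y ∈ B))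
    (h0 : 0 < prob μ B) (h1 : prob μ B < 1) : Nonempty (Edge μ B) := by
  classical
  -- events determined by one bit
  have one : ∀ v : Fin n, (∀ x y : Fin n → Fin 2, x v = y v → (x ∈ B ↔ y ∈ B)) →
      Nonempty (Edge μ B) := by
    intro v hv
    let β : Fin 2 → Bool := fun i => decide ((fun _ => i : Fin n → Fin 2) ∈ B)
    have hB : ∀ y, y ∈ B ↔ β (y v) = true := by
      intro y
      simp only [β, decide_eq_true_eq]
      exact hv y _ rfl
    refine edge_of_one hμ v β ?_ hB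
    intro hβ
    have hall : ∀ y y' : Fin n → Fin 2, y ∈ B → y' ∈ B := by
      intro y y' hy
      rw [hB] at hy ⊢
      have key : ∀ i j : Fin 2, β i = true → β j = true := by
        intro i j
        fin_cases i <;> fin_cases j <;> simp_all
      exact key _ _ hy
    by_cases hne : ∃ y, y ∈ B
    · obtain ⟨y, hy⟩ := hne
      have : B = Set.univ := Set.eq_univ_of_forall (fun y' => hall y y' hy)
      have h2 : prob μ B = 1 := by
        rw [this, prob_eq]
        simp only [Set.indicator_univ]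
        exact Ex_const hμ.isSource 1
      linarith
    · have : B = ∅ := Set.eq_empty_iff_forall_notMem.2 (fun y hy => hne ⟨y, hy⟩)
      have h2 : prob μ B = 0 := by
        rw [this]
        simp [prob]
      linarith
  by_cases huw : u = w
  · subst huw
    exact one u (fun x y h => hdet x y h h)
  let pt : Fin 2 → Fin 2 → (Fin n → Fin 2) := fun i j v => if v = u then i else j
  let β : Fin 2 → Fin 2 → Bool := fun i j => decide (pt i j ∈ B)
  have hB : ∀ y, y ∈ B ↔ β (y u) (y w) = true := by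
    intro y
    simp only [β, decide_eq_true_eq]
    apply hdet
    · simp [pt]
    · simp [pt, Ne.symm huw]
  by_cases hβ : (β 1 1).toNat + (β 0 0).toNat ≠ (β 1 0).toNat + (β 0 1).toNat
  · exact edge_of_two hμ u w huw β hβ hB
  · rcases no_interaction hβ with h | h
    · refine one u (fun x y hxy => ?_)
      rw [hB, hB, hxy, h (y u) (x w) (y w)]
    · refine one w (fun x y hxy => ?_)
      rw [hB, hB, hxy, h (x u) (y u) (y w)]

end Pool.Agent.H56.GE
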