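import Pool.Agent.H56.GE.Upper

set_option autoImplicit false
set_option linter.unusedSectionVars false

/-!
# Comparisons of fair bits, one of them fixed
-/

namespace Pool.Agent.H56.GE

open Finset Matrix Pool.Agent.H56.GL

variable {n : ℕ} {ι : Type} [DecidableEq ι]

/-- the bits `s` and `t` of `0, x 0, …, x (n-1)` differ -/
def Dif (s t : Fin (n + 1)) : Set (Fin n → Fin 2) :=
  {x | (Fin.cons 0 x : Fin (n + 1) → Fin 2) s ≠ (Fin.cons 0 x : Fin (n + 1) → Fin 2) t}

lemma fair_ext : (fair (Fin (n + 1))) = ext (fair (Fin n)) := by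
  funext v a
  refine Fin.cases ?_ (fun v => ?_) v
  · rfl
  · rfl

lemma prob_two (D : Set (Fin (n + 1) → Fin 2)) :
    prob (fair (Fin (n + 1))) D =
      1 / 2 * prob (fair (Fin n)) {y | (Fin.cons 0 y : Fin (n + 1) → Fin 2) ∈ D} +
      1 / 2 * prob (fair (Fin n)) {y | (Fin.cons 1 y : Fin (n + 1) → Fin 2) ∈ D} := by
  classical
  rw [prob_eq, fair_ext, Ex_ext, Fin.sum_univ_two, prob_eq, prob_eq]
  unfold Ex
  rw [Finset.mul_sum, Finset.mul_sum]
  rfl

lemma dif_indep {k : ℕ} {s t : ι → Fin (n + 1)} (hst : ∀ e, s e ≠ t e)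
    (F : Finset ι) (hinj : Set.InjOn (fun e => s(s e, t e)) (F : Set ι))
    (hg : ((k : ℕ) : ℕ∞) < (pairGraph s t F).egirth) (hcard : F.card ≤ k) :
    prob (fair (Fin n)) (⋂ e ∈ F, Dif (s e) (t e)) = (1 / 2) ^ F.card := by
  have h1 := xor_indep hst F hinj hg hcard
  rw [prob_two] at h1
  have h2 : {y : Fin n → Fin 2 | (Fin.cons 0 y : Fin (n + 1) → Fin 2) ∈
      ⋂ e ∈ F, Differ (s e) (t e)} = ⋂ e ∈ F, Dif (s e) (t e) := by
    ext y
    simp [Dif, Differ]
  have h3 : prob (fair (Fin n)) {y : Fin n → Fin 2 | (Fin.cons 1 y : Fin (n + 1) → Fin 2) ∈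
      ⋂ e ∈ F, Differ (s e) (t e)} = prob (fair (Fin n)) (⋂ e ∈ F, Dif (s e) (t e)) := by
    apply prob_shift (fun _ => 1)
    intro y
    have h4 : (Fin.cons 1 (y + fun _ => 1) : Fin (n + 1) → Fin 2) =
        (Fin.cons 0 y : Fin (n + 1) → Fin 2) + fun _ => 1 := by
      funext v
      refine Fin.cases ?_ (fun v => ?_) v
      · simp
      · simp
    simp only [Set.mem_ofPred_eq, Set.mem_iInter, h4, Dif, Differ, Pi.add_apply]
    constructor
    · intro h e he
      exact (fin2_aux _ _ _).1 (h e he)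
    · intro h e he
      exact (fin2_aux _ _ _).2 (h e he)
  rw [h2, h3] at h1
  linarith

end Pool.Agent.H56.GE
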