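import Pool.Agent.H56.GE.Alg
import Pool.Agent.H56.GL.Exp

set_option autoImplicit false
set_option linter.unusedSectionVars false

/-!
# Expectations of products along paths and cycles
-/

namespace Pool.Agent.H56.GE

open Finset Matrix Pool.Agent.H56.GL

variable {V A : Type} [Fintype V] [DecidableEq V] [Fintype A] [DecidableEq A]

/-- `φ v` has expectation `0` and variance `1` -/
def ON (μ φ : V → A → ℝ) : Prop :=
  ∀ v, ∑ d, μ v d * φ v d = 0 ∧ ∑ d, μ v d * φ v d ^ 2 = 1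

/-- the function with the coefficients `M` -/
def fn (M : Matrix (Fin 2) (Fin 2) ℝ) (p q : A → ℝ) (x y : A) : ℝ :=
  M 0 0 + M 0 1 * q y + M 1 0 * p x + M 1 1 * (p x * q y)

lemma W_shift (M : ℕ → Matrix (Fin 2) (Fin 2) ℝ) (i r : ℕ) :
    W (fun j => M (i + j)) 0 r = W M i r := by
  induction r with
  | zero => rfl
  | succ r ih => rw [W, W, ih]; simp

lemma comp_fn {μ φ : V → A → ℝ} (hμ : IsSource μ) (hφ : ON μ φ) (c : ℕ → V)
    (M : ℕ → Matrix (Fin 2) (Fin 2) ℝ) (j : ℕ) (x y : A) :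
    GL.comp μ c (fun i => fn (M i) (φ (c i)) (φ (c (i + 1)))) j x y =
      fn (W M 0 (j + 1)) (φ (c 0)) (φ (c (j + 1))) x y := by
  induction j generalizing y with
  | zero => simp [GL.comp, W]
  | succ j ih =>
    rw [show GL.comp μ c (fun i => fn (M i) (φ (c i)) (φ (c (i + 1)))) (j + 1) x y =
      ∑ d, μ (c (j + 1)) d * (GL.comp μ c (fun i => fn (M i) (φ (c i)) (φ (c (i + 1)))) j x d *
        fn (M (j + 1)) (φ (c (j + 1))) (φ (c (j + 1 + 1))) d y) from rfl]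
    simp only [ih]
    set P := W M 0 (j + 1) with hP
    obtain ⟨h0, h1⟩ := hφ (c (j + 1))
    have h2 := (hμ (c (j + 1))).2
    set v := c (j + 1)
    set p := φ (c 0) x
    set q := φ (c (j + 1 + 1)) y
    have e1 : ∀ d, μ v d * (fn P (φ (c 0)) (φ v) x d * fn (M (j + 1)) (φ v) (φ (c (j + 1 + 1))) d y)
        = (P 0 0 + P 1 0 * p) * (M (j + 1) 0 0 + M (j + 1) 0 1 * q) * μ v d +
          ((P 0 0 + P 1 0 * p) * (M (j + 1) 1 0 + M (j + 1) 1 1 * q) +
            (P 0 1 + P 1 1 * p) * (M (j + 1) 0 0 + M (j + 1) 0 1 * q)) * (μ v d * φ v d) +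
          (P 0 1 + P 1 1 * p) * (M (j + 1) 1 0 + M (j + 1) 1 1 * q) * (μ v d * φ v d ^ 2) := by
      intro d
      unfold fn
      ring
    simp only [e1]
    rw [Finset.sum_add_distrib, Finset.sum_add_distrib, ← Finset.mul_sum, ← Finset.mul_sum,
      ← Finset.mul_sum, h0, h1, h2]
    rw [show W M 0 (j + 1 + 1) = P * M (j + 1) from by rw [W, ← hP]; simp]
    unfold fn
    simp only [Matrix.mul_apply, Fin.sum_univ_two]
    ring

/-- paths -/
lemma Ex_path_fn {μ φ : V → A → ℝ} (hμ : IsSource μ) (hφ : ON μ φ) (c : ℕ → V)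
    (M : ℕ → Matrix (Fin 2) (Fin 2) ℝ) (j : ℕ)
    (hc : ∀ i l, i ≤ j + 1 → l ≤ j + 1 → c i = c l → i = l) :
    Ex μ (fun x => ∏ i ∈ range (j + 1), fn (M i) (φ (c i)) (φ (c (i + 1))) (x (c i)) (x (c (i + 1))))
      = W M 0 (j + 1) 0 0 := by
  have h1 := Ex_path hμ c (fun i => fn (M i) (φ (c i)) (φ (c (i + 1)))) j (by
    intro i hi1 hi2 l hl hli hcl
    exact hli (hc l i hl (by omega) hcl)) (fun _ => 1) (fun _ _ _ _ _ => rfl)
  simp only [mul_one] at h1
  rw [h1]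
  simp only [comp_fn hμ hφ]
  have hne : c 0 ≠ c (j + 1) := fun h => absurd (hc 0 (j + 1) (by omega) le_rfl h) (by omega)
  rw [Ex_two_coord hμ hne (fun a b => fn (W M 0 (j + 1)) (φ (c 0)) (φ (c (j + 1))) a b)]
  obtain ⟨a0, a1⟩ := hφ (c 0)
  obtain ⟨b0, b1⟩ := hφ (c (j + 1))
  have a2 := (hμ (c 0)).2
  have b2 := (hμ (c (j + 1))).2
  set P := W M 0 (j + 1)
  have e1 : ∀ a, ∑ b, μ (c 0) a * μ (c (j + 1)) b * fn P (φ (c 0)) (φ (c (j + 1))) a b =
      P 0 0 * μ (c 0) a + P 1 0 * (μ (c 0) a * φ (c 0) a) := by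
    intro a
    have e2 : ∀ b, μ (c 0) a * μ (c (j + 1)) b * fn P (φ (c 0)) (φ (c (j + 1))) a b =
        (μ (c 0) a * (P 0 0 + P 1 0 * φ (c 0) a)) * μ (c (j + 1)) b +
          (μ (c 0) a * (P 0 1 + P 1 1 * φ (c 0) a)) * (μ (c (j + 1)) b * φ (c (j + 1)) b) := by
      intro b; unfold fn; ring
    simp only [e2]
    rw [Finset.sum_add_distrib, ← Finset.mul_sum, ← Finset.mul_sum, b0, b2]
    ring
  simp only [e1]
  rw [Finset.sum_add_distrib, ← Finset.mul_sum, ← Finset.mul_sum, a0, a2]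
  ring

/-- cycles -/
lemma Ex_cycle_fn {μ φ : V → A → ℝ} (hμ : IsSource μ) (hφ : ON μ φ) (c : ℕ → V)
    (M : ℕ → Matrix (Fin 2) (Fin 2) ℝ) (j : ℕ) (hcl : c (j + 1) = c 0)
    (hc : ∀ i l, i < j + 1 → l < j + 1 → c i = c l → i = l) :
    Ex μ (fun x => ∏ i ∈ range (j + 1), fn (M i) (φ (c i)) (φ (c (i + 1))) (x (c i)) (x (c (i + 1))))
      = (W M 0 (j + 1)).trace := by
  have h1 := Ex_path hμ c (fun i => fn (M i) (φ (c i)) (φ (c (i + 1)))) j (by
    intro i hi1 hi2 l hl hli hcl'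
    rcases Nat.lt_or_ge l (j + 1) with h | h
    · exact hli (hc l i h (by omega) hcl')
    · have : l = j + 1 := by omega
      subst this
      rw [hcl] at hcl'
      have := hc 0 i (by omega) (by omega) hcl'
      omega) (fun _ => 1) (fun _ _ _ _ _ => rfl)
  simp only [mul_one] at h1
  rw [h1]
  simp only [comp_fn hμ hφ]
  have h2 : (fun x : V → A => fn (W M 0 (j + 1)) (φ (c 0)) (φ (c (j + 1))) (x (c 0)) (x (c (j + 1))))
      = fun x => (fun a => fn (W M 0 (j + 1)) (φ (c 0)) (φ (c 0)) a a) (x (c 0)) := by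
    funext x
    rw [hcl]
  rw [h2, Ex_one_coord hμ (c 0) (fun a => fn (W M 0 (j + 1)) (φ (c 0)) (φ (c 0)) a a)]
  obtain ⟨a0, a1⟩ := hφ (c 0)
  have a2 := (hμ (c 0)).2
  set P := W M 0 (j + 1)
  have e1 : ∀ a, μ (c 0) a * fn P (φ (c 0)) (φ (c 0)) a a =
      P 0 0 * μ (c 0) a + (P 0 1 + P 1 0) * (μ (c 0) a * φ (c 0) a) +
        P 1 1 * (μ (c 0) a * φ (c 0) a ^ 2) := by
    intro a; unfold fn; ring
  simp only [e1]
  rw [Finset.sum_add_distrib, Finset.sum_add_distrib, ← Finset.mul_sum, ← Finset.mul_sum,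
    ← Finset.mul_sum, a0, a1, a2, Matrix.trace_fin_two]
  ring

/-- **No short cycles.** The functions `F i` belong to the edges `c i — c (i+1)` of a cycle. -/
theorem no_cycle {μ φ : V → A → ℝ} (hμ : IsSource μ) (hφ : ON μ φ) {l : ℕ} (hl : 3 ≤ l)
    (cw : ℕ → V) (hper : ∀ i, cw (i + l) = cw i)
    (hinj : ∀ i j, i < l → j < l → cw i = cw j → i = j)
    (a b c : ℕ → ℝ) (hp : ∀ i, a (i + l) = a i ∧ b (i + l) = b i ∧ c (i + l) = c i)
    (hc : ∀ i, c i ≠ 0)
    (hpair : ∀ i, (b i = 0 ∨ a (i + 1) = 0) → a i * b (i + 1) + c i * c (i + 1) ≠ 0)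
    (hE : ∀ i r, 1 ≤ r → r ≤ l → Ex μ (fun x => ∏ j ∈ range r,
      fn (Mt a b c (i + j)) (φ (cw (i + j))) (φ (cw (i + j + 1))) (x (cw (i + j)))
        (x (cw (i + j + 1)))) = 0) : False := by
  have hmod : ∀ i, cw i = cw (i % l) := by
    intro i
    have : ∀ q r, cw (r + q * l) = cw r := by
      intro q
      induction q with
      | zero => intro r; simp
      | succ q ih => intro r; rw [Nat.succ_mul, ← Nat.add_assoc, hper, ih]
    conv_lhs => rw [← Nat.mod_add_div' i l]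
    exact this _ _
  have hinj' : ∀ i s t, s < l → t < l → cw (i + s) = cw (i + t) → s = t := by
    intro i s t hs ht h
    rw [hmod (i + s), hmod (i + t)] at h
    have := hinj _ _ (Nat.mod_lt _ (by omega)) (Nat.mod_lt _ (by omega)) h
    have h2 : s % l = t % l := Nat.ModEq.add_left_cancel' i this
    rwa [Nat.mod_eq_of_lt hs, Nat.mod_eq_of_lt ht] at h2
  obtain ⟨i, hi⟩ := trace_ne (a := a) (b := b) (c := c) hl (fun i => ⟨(hp i).1, (hp i).2.1⟩) hc
    (by
      intro i r hr hrl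
      obtain ⟨r, rfl⟩ : ∃ r', r = r' + 1 := ⟨r - 1, by omega⟩
      have h1 := Ex_path_fn hμ hφ (fun j => cw (i + j)) (fun j => Mt a b c (i + j)) r (by
        intro s t hs ht h
        exact hinj' i s t (by omega) (by omega) h)
      rw [W_shift] at h1
      rw [← h1]
      exact hE i (r + 1) (by omega) (by omega))
    hpair
  apply hi
  obtain ⟨r, rfl⟩ : ∃ r', l = r' + 1 := ⟨l - 1, by omega⟩
  have h1 := Ex_cycle_fn hμ hφ (fun j => cw (i + j)) (fun j => Mt a b c (i + j)) r (by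
    simp only [add_zero]
    exact hper i) (by
    intro s t hs ht h
    exact hinj' i s t hs ht h)
  rw [W_shift] at h1
  rw [← h1]
  exact hE i (r + 1) (by omega) le_rfl

end Pool.Agent.H56.GE
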