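import Pool.Agent.H56.GE.Edge

set_option autoImplicit false
set_option linter.unusedSectionVars false

/-!
# The edges of `k`-wise independent events form a graph of girth `> k`
-/

namespace Pool.Agent.H56.GE

open Finset Matrix Pool.Agent.H56.GL

variable {n : ℕ} {μ : Fin n → Fin 2 → ℝ}

lemma fn_swap (a b c : ℝ) (p q : Fin 2 → ℝ) (x y : Fin 2) :
    fn !![0, a; b, c] q p y x = fn !![0, b; a, c] p q x y := by
  unfold fn
  simp
  ring

lemma prob_univ (hμ : PosSource μ) : prob μ Set.univ = 1 := by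
  rw [prob_eq]
  simp only [Set.indicator_univ]
  exact Ex_const hμ.isSource 1

/-- comparable events are not independent -/
lemma not_indep (hμ : PosSource μ) {B D : Set (Fin n → Fin 2)}
    (hB : 0 < prob μ B ∧ prob μ B < 1) (hD : 0 < prob μ D ∧ prob μ D < 1)
    (hind : prob μ (B ∩ D) = prob μ B * prob μ D)
    (h : B ⊆ D ∨ D ⊆ B ∨ B ⊆ Dᶜ ∨ Bᶜ ⊆ D) : False := by
  have hc : ∀ E : Set (Fin n → Fin 2), prob μ E + prob μ Eᶜ = 1 := by
    intro E
    have := prob_add μ Set.univ E
    rw [Set.univ_inter, Set.univ_inter, prob_univ hμ] at this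
    exact this
  rcases h with h | h | h | h
  · rw [Set.inter_eq_left.2 h] at hind
    nlinarith [hB.1, hD.2]
  · rw [Set.inter_eq_right.2 h] at hind
    nlinarith [hD.1, hB.2]
  · have h1 : B ∩ D = ∅ := by
      ext x
      simp only [Set.mem_inter_iff, Set.mem_empty_iff_false, iff_false, not_and]
      intro hx hx'
      exact h hx hx'
    rw [h1] at hind
    have h2 : prob μ (∅ : Set (Fin n → Fin 2)) = 0 := by simp [prob]
    rw [h2] at hind
    have := mul_pos hB.1 hD.1
    linarith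
  · have h1 := prob_add μ D B
    have h2 : D ∩ Bᶜ = Bᶜ := Set.inter_eq_right.2 h
    rw [h2, Set.inter_comm, hind] at h1
    have h3 := hc B
    nlinarith [hB.2, hD.2]

/-- two events with the same edge are not independent -/
lemma parallel (hμ : PosSource μ) {B D : Set (Fin n → Fin 2)}
    (hB : 0 < prob μ B ∧ prob μ B < 1) (hD : 0 < prob μ D ∧ prob μ D < 1)
    (hind : prob μ (B ∩ D) = prob μ B * prob μ D) (E : Edge μ B) (F : Edge μ D)
    (h : (E.s = F.s ∧ E.t = F.t) ∨ (E.s = F.t ∧ E.t = F.s)) : False := by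
  apply not_indep hμ hB hD hind
  rcases E.shape with ⟨v, β, e1, e2, e3, e4⟩ | ⟨u, w, β, e1, e2, e3, e4⟩ <;>
    rcases F.shape with ⟨v', γ, f1, f2, f3, f4⟩ | ⟨u', w', γ, f1, f2, f3, f4⟩
  · have hv : v = v' := by
      rcases h with ⟨-, h⟩ | ⟨h, -⟩
      · rw [e2, f2] at h; exact Fin.succ_injective _ h
      · rw [e1, f2] at h; exact absurd h.symm (Fin.succ_ne_zero _)
    subst hv
    rcases tables1 β γ e3 f3 with h1 | h1
    · left
      intro y hy
      exact (f4 y).2 (h1 _ ((e4 y).1 hy))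
    · right; right; left
      intro y hy hy'
      exact h1 _ ((e4 y).1 hy) ((f4 y).1 hy')
  · exfalso
    rcases h with ⟨h, -⟩ | ⟨h, -⟩
    · rw [e1, f1] at h; exact absurd h.symm (Fin.succ_ne_zero _)
    · rw [e1, f2] at h; exact absurd h.symm (Fin.succ_ne_zero _)
  · exfalso
    rcases h with ⟨h, -⟩ | ⟨-, h⟩
    · rw [e1, f1] at h; exact absurd h (Fin.succ_ne_zero _)
    · rw [e2, f1] at h; exact absurd h (Fin.succ_ne_zero _)
  · -- both determined by two bits
    obtain ⟨γ', hγ', hD'⟩ : ∃ γ' : Fin 2 → Fin 2 → Bool,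
        (γ' 1 1).toNat + (γ' 0 0).toNat ≠ (γ' 1 0).toNat + (γ' 0 1).toNat ∧
        ∀ y, y ∈ D ↔ γ' (y u) (y w) = true := by
      rcases h with ⟨h1, h2⟩ | ⟨h1, h2⟩
      · rw [e1, f1] at h1
        rw [e2, f2] at h2
        have a1 := Fin.succ_injective _ h1
        have a2 := Fin.succ_injective _ h2
        subst a1; subst a2
        exact ⟨γ, f3, f4⟩
      · rw [e1, f2] at h1
        rw [e2, f1] at h2
        have a1 := Fin.succ_injective _ h1
        have a2 := Fin.succ_injective _ h2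
        subst a1; subst a2
        refine ⟨fun i j => γ j i, ?_, f4⟩
        rw [Nat.add_comm (γ 0 1).toNat]
        exact f3
    rcases tables β γ' e3 hγ' with h1 | h1 | h1 | h1
    · left
      intro y hy
      exact (hD' y).2 (h1 _ _ ((e4 y).1 hy))
    · right; left
      intro y hy
      exact (e4 y).2 (h1 _ _ ((hD' y).1 hy))
    · right; right; left
      intro y hy hy'
      exact h1 _ _ ((e4 y).1 hy) ((hD' y).1 hy')
    · right; right; right
      intro y hy
      exact (hD' y).2 (h1 _ _ (fun h' => hy ((e4 y).2 h')))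

/-- the function of an edge -/
noncomputable def Edge.f {B : Set (Fin n → Fin 2)} (E : Edge μ B) (x : Fin (n + 1) → Fin 2) : ℝ :=
  fn !![0, E.b; E.a, E.c] (ph (ext μ) E.s) (ph (ext μ) E.t) (x E.s) (x E.t)

lemma vanish {ι : Type} [DecidableEq ι] {B : ι → Set (Fin n → Fin 2)}
    (E : ∀ e, Edge μ (B e)) (hp : ∀ e, 0 < prob μ (B e) ∧ prob μ (B e) < 1) (k : ℕ)
    (hind : ∀ F : Finset ι, F.card ≤ k → prob μ (⋂ e ∈ F, B e) = ∏ e ∈ F, prob μ (B e))
    (F : Finset ι) (hF : F.Nonempty) (hk : F.card ≤ k) :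
    Ex (ext μ) (fun x => ∏ e ∈ F, (E e).f x) = 0 := by
  have h1 := Ex_prod_sub_le (μ := μ) B F hF 0 (fun e => ⟨(hp e).1.le, (hp e).2.le⟩)
    (fun S hS => by rw [hind S ((Finset.card_le_card hS).trans hk)]; simp)
  rw [mul_zero] at h1
  have h2 := abs_eq_zero.1 (le_antisymm h1 (abs_nonneg _))
  rw [Ex_ext]
  have h3 : ∀ (a : Fin 2) (y : Fin n → Fin 2),
      1 / 2 * (wt μ y * ∏ e ∈ F, (E e).f (Fin.cons a y : Fin (n + 1) → Fin 2)) =
      (1 / 2 * ∏ e ∈ F, (if (E e).s = 0 then ph (ext μ) 0 a else 1)) *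
        (wt μ y * ∏ e ∈ F, ((B e).indicator (fun _ => (1 : ℝ)) y - prob μ (B e))) := by
    intro a y
    have h4 : ∏ e ∈ F, (E e).f (Fin.cons a y : Fin (n + 1) → Fin 2) =
        (∏ e ∈ F, (if (E e).s = 0 then ph (ext μ) 0 a else 1)) *
          ∏ e ∈ F, ((B e).indicator (fun _ => (1 : ℝ)) y - prob μ (B e)) := by
      rw [← Finset.prod_mul_distrib]
      refine Finset.prod_congr rfl (fun e _ => ?_)
      unfold Edge.f
      rw [(E e).val]
      simp only [Fin.cons_zero, Fin.cons_succ]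
    rw [h4]
    ring
  simp only [h3]
  refine Finset.sum_eq_zero (fun a _ => ?_)
  rw [← Finset.mul_sum]
  unfold Ex at h2
  rw [h2, mul_zero]

theorem noCyc {ι : Type} [Fintype ι] [DecidableEq ι] {B : ι → Set (Fin n → Fin 2)}
    (hμ : PosSource μ)
    (E : ∀ e, Edge μ (B e)) (hp : ∀ e, 0 < prob μ (B e) ∧ prob μ (B e) < 1) (k : ℕ)
    (hind : ∀ F : Finset ι, F.card ≤ k → prob μ (⋂ e ∈ F, B e) = ∏ e ∈ F, prob μ (B e)) :
    NoCyc k (fun e => (E e).s) (fun e => (E e).t) univ := by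
  intro l hl2 hlk c e hcl hcinj heinj hE
  rcases Nat.lt_or_ge l 3 with hl | hl
  · -- parallel edges
    have hl' : l = 2 := by omega
    subst hl'
    have hne : e 0 ≠ e 1 := fun h => absurd (heinj 0 1 (by omega) (by omega) h) (by omega)
    refine parallel hμ (hp (e 0)) (hp (e 1)) ?_ (E (e 0)) (E (e 1)) ?_
    · have h1 := hind {e 0, e 1} (by rw [Finset.card_pair hne]; exact hlk)
      rw [Finset.prod_pair hne] at h1
      simpa using h1
    · have h0 := (hE 0 (by omega)).2
      have h1 := (hE 1 (by omega)).2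
      simp only [zero_add] at h0
      rw [show (1 : ℕ) + 1 = 2 from rfl, hcl] at h1
      rcases h0 with ⟨a1, a2⟩ | ⟨a1, a2⟩ <;> rcases h1 with ⟨b1, b2⟩ | ⟨b1, b2⟩
      · exact Or.inr ⟨a1.trans b2.symm, a2.trans b1.symm⟩
      · exact Or.inl ⟨a1.trans b1.symm, a2.trans b2.symm⟩
      · exact Or.inl ⟨a1.trans b1.symm, a2.trans b2.symm⟩
      · exact Or.inr ⟨a1.trans b2.symm, a2.trans b1.symm⟩
  -- a cycle
  have hl0 : 0 < l := by omega
  let cw : ℕ → Fin (n + 1) := fun i => c (i % l)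
  let ed : ℕ → ι := fun i => e (i % l)
  have hper : ∀ i, cw (i + l) = cw i := fun i => by simp [cw]
  have hcw1 : ∀ i, cw (i + 1) = c (i % l + 1) := by
    intro i
    simp only [cw]
    have hm := Nat.mod_lt i hl0
    rcases Nat.lt_or_ge (i % l + 1) l with h | h
    · rw [Nat.add_mod, Nat.mod_eq_of_lt (show 1 < l by omega), Nat.mod_eq_of_lt h]
    · have h2 : i % l + 1 = l := by omega
      rw [Nat.add_mod, Nat.mod_eq_of_lt (show 1 < l by omega), h2, Nat.mod_self, hcl]
  have hor : ∀ i, ((E (ed i)).s = cw i ∧ (E (ed i)).t = cw (i + 1)) ∨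
      (¬ ((E (ed i)).s = cw i ∧ (E (ed i)).t = cw (i + 1)) ∧
        (E (ed i)).s = cw (i + 1) ∧ (E (ed i)).t = cw i) := by
    intro i
    have := (hE (i % l) (Nat.mod_lt _ hl0)).2
    rw [← hcw1] at this
    by_cases h : (E (ed i)).s = cw i ∧ (E (ed i)).t = cw (i + 1)
    · exact Or.inl h
    · exact Or.inr ⟨h, this.resolve_left h⟩
  classical
  let aa : ℕ → ℝ := fun i =>
    if (E (ed i)).s = cw i ∧ (E (ed i)).t = cw (i + 1) then (E (ed i)).a else (E (ed i)).b
  let bb : ℕ → ℝ := fun i =>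
    if (E (ed i)).s = cw i ∧ (E (ed i)).t = cw (i + 1) then (E (ed i)).b else (E (ed i)).a
  let cc : ℕ → ℝ := fun i => (E (ed i)).c
  have hedper : ∀ i, ed (i + l) = ed i := fun i => by simp [ed]
  have hper1 : ∀ i, cw (i + l + 1) = cw (i + 1) := fun i => by
    rw [show i + l + 1 = i + 1 + l from by ring, hper]
  have hf : ∀ i (x : Fin (n + 1) → Fin 2),
      fn (Mt aa bb cc i) (ph (ext μ) (cw i)) (ph (ext μ) (cw (i + 1))) (x (cw i)) (x (cw (i + 1))) =
        (E (ed i)).f x := by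
    intro i x
    unfold Mt Edge.f
    rcases hor i with h | ⟨h, h1, h2⟩
    · simp only [aa, bb, cc, if_pos h]
      rw [h.1, h.2]
    · simp only [aa, bb, cc, if_neg h]
      rw [h1, h2]
      exact fn_swap _ _ _ _ _ _ _
  refine no_cycle (ext_pos hμ).isSource (ph_ON (ext_pos hμ)) hl cw hper ?_ aa bb cc ?_ ?_ ?_ ?_
  · intro i j hi hj hij
    simp only [cw, Nat.mod_eq_of_lt hi, Nat.mod_eq_of_lt hj] at hij
    exact hcinj i j hi hj hij
  · intro i
    have key : ∀ e e' : ι, e = e' → (E e).s = (E e').s ∧ (E e).t = (E e').t ∧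
        (E e).a = (E e').a ∧ (E e).b = (E e').b ∧ (E e).c = (E e').c := by
      rintro e _ rfl
      exact ⟨rfl, rfl, rfl, rfl, rfl⟩
    obtain ⟨k1, k2, k3, k4, k5⟩ := key _ _ (hedper i)
    simp only [aa, bb, cc]
    rw [hper, hper1, k1, k2, k3, k4, k5]
    exact ⟨rfl, rfl, rfl⟩
  · intro i
    exact (E (ed i)).hs.1
  · intro i h0
    have H1 : Half (ext μ) (cw (i + 1)) (bb i) (aa i) (cc i) := by
      rcases hor i with h | ⟨h, h1, h2⟩
      · simp only [aa, bb, cc, if_pos h]
        rw [← h.2]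
        exact (E (ed i)).ht
      · simp only [aa, bb, cc, if_neg h]
        rw [← h1]
        exact (E (ed i)).hs
    have H2 : Half (ext μ) (cw (i + 1)) (aa (i + 1)) (bb (i + 1)) (cc (i + 1)) := by
      rcases hor (i + 1) with h | ⟨h, h1, h2⟩
      · simp only [aa, bb, cc, if_pos h]
        rw [← h.1]
        exact (E (ed (i + 1))).hs
      · simp only [aa, bb, cc, if_neg h]
        rw [← h2]
        exact (E (ed (i + 1))).ht
    exact half_pair (ext_pos hμ) H1 H2 h0
  · intro i r hr hrl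
    have hinj : Set.InjOn (fun j => ed (i + j)) (range r : Set ℕ) := by
      intro s hs t ht hst
      simp only [Finset.coe_range, Set.mem_Iio] at hs ht
      have h1 := heinj _ _ (Nat.mod_lt _ hl0) (Nat.mod_lt _ hl0) hst
      have h2 : s % l = t % l := Nat.ModEq.add_left_cancel' i h1
      rwa [Nat.mod_eq_of_lt (by omega), Nat.mod_eq_of_lt (by omega)] at h2
    have h1 : (fun x : Fin (n + 1) → Fin 2 => ∏ j ∈ range r,
        fn (Mt aa bb cc (i + j)) (ph (ext μ) (cw (i + j))) (ph (ext μ) (cw (i + j + 1)))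
          (x (cw (i + j))) (x (cw (i + j + 1)))) =
        fun x => ∏ f ∈ (range r).image (fun j => ed (i + j)), (E f).f x := by
      funext x
      rw [Finset.prod_image hinj]
      exact Finset.prod_congr rfl (fun j _ => hf (i + j) x)
    rw [h1]
    apply vanish E hp k hind
    · exact ⟨ed (i + 0), Finset.mem_image.2 ⟨0, Finset.mem_range.2 (by omega), rfl⟩⟩
    · exact (Finset.card_image_le.trans (by simp)).trans (hrl.trans hlk)

end Pool.Agent.H56.GE
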